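import Pool.Agent.Helper72.LS.L1

/-!
Piece LS-P7a: local facts at a vertex.
-/

namespace Pool.Agent.Helper83.LS

open Finset
open scoped Classical
open Pool.Agent.Helper72.LS

theorem loc_union {V : Type} [Fintype V] (G : SimpleGraph V) (w y y' : V) :
    ((Qs G w y ∪ Qs G w y').card : ℤ) = dg G w - co G y y'
      + ∑ u ∈ PH G w, ad G y u * ad G y' u := by
  have h1 : ((Qs G w y ∪ Qs G w y').card : ℤ)
      = ∑ x, ad G w x * (1 - ad G y x * ad G y' x) := by
    have h : Qs G w y ∪ Qs G w y'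
        = univ.filter (fun x => G.Adj w x ∧ ¬ (G.Adj y x ∧ G.Adj y' x)) := by
      ext x
      simp only [Finset.mem_union, mem_Qs, Finset.mem_filter, Finset.mem_univ, true_and]
      tauto
    rw [h, Finset.card_filter]
    push_cast
    refine Finset.sum_congr rfl fun x _ => ?_
    unfold ad
    by_cases h1 : G.Adj w x <;> by_cases h2 : G.Adj y x <;> by_cases h3 : G.Adj y' x <;>
      simp [h1, h2, h3]
  rw [h1, sum_PH]
  unfold dg co
  rw [← Finset.sum_sub_distrib, ← Finset.sum_add_distrib]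
  refine Finset.sum_congr rfl fun x _ => ?_
  ring

theorem loc_sdiff {V : Type} [Fintype V] (G : SimpleGraph V) (w x : V) :
    (((NG G w).filter (fun u => ¬ G.Adj x u)).card : ℤ) = dg G w - co G w x := by
  rw [Finset.card_filter]
  push_cast
  rw [sum_NG]
  unfold dg co
  rw [← Finset.sum_sub_distrib]
  refine Finset.sum_congr rfl fun u _ => ?_
  unfold ad
  by_cases h1 : G.Adj w u <;> by_cases h2 : G.Adj x u <;> simp [h1, h2]

theorem loc_co_le {V : Type} [Fintype V] (G : SimpleGraph V) (w x y : V) :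
    co G x y ≤ co G w x + ∑ u ∈ PH G w, ad G y u := by
  rw [sum_PH]
  unfold co
  rw [← Finset.sum_add_distrib]
  refine Finset.sum_le_sum fun u _ => ?_
  unfold ad
  by_cases h1 : G.Adj w u <;> by_cases h2 : G.Adj x u <;> by_cases h3 : G.Adj y u <;>
    simp [h1, h2, h3]

theorem loc_sum {V : Type} [Fintype V] (G : SimpleGraph V) (k δ : ℤ) (w : V) :
    ∑ y ∈ PH G w, ∑ y' ∈ PH G w, ad G y y' * (cc G k δ y y'
      + ∑ u ∈ PH G w, ad G y u * ad G y' u) = Cent2 G k δ w + 6 * tI G (PH G w) := by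
  rw [six_tI]
  unfold Cent2
  rw [← Finset.sum_add_distrib]
  refine Finset.sum_congr rfl fun y _ => ?_
  rw [← Finset.sum_add_distrib]
  refine Finset.sum_congr rfl fun y' _ => ?_
  rw [mul_add, Finset.mul_sum]
  congr 1
  refine Finset.sum_congr rfl fun u _ => ?_
  ring

end Pool.Agent.Helper83.LS
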